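import Pool.Agent.Y898.MTC

/-!
# Properties of vectors of consecutive gaps and colourings of their sums at the same time
(helper365)
-/

set_option autoImplicit false
set_option maxHeartbeats 4000000

namespace Pool.Agent.N365.PG

open Finset Filter
open Pool.Agent.H256R2.SC (ff)
open Pool.Agent.H752R3.MT (Blk)
open Pool.Agent.Y898.PR (Inc)
open Pool.Agent.Y898.PolyGaps (Cl)

/-- a colouring of `k`-tuples of blocks and a property of `m`-tuples of blocks that occurs in every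
sequence of blocks -/
theorem joint_fin (k m ρ r : ℕ) : ∃ R : ℕ, ∀ χ : (Fin k → Finset ℕ) → Fin ρ,
    ∀ G : (Fin m → Finset ℕ) → Prop,
    (∀ X : ℕ → Finset ℕ, Blk X → ∃ α : Fin m → Finset ℕ, Inc r α ∧
      G (fun l => (α l).biUnion X)) →
    ∃ γ : Fin m → Finset ℕ, Inc R γ ∧ G γ ∧ ∃ col, ∀ I : Fin k → Finset (Fin m),
      (∀ l, (I l).Nonempty) → (∀ l l', l < l' → ∀ i ∈ I l, ∀ j ∈ I l', i < j) →
      χ (fun l => (I l).biUnion γ) = col := by
  classical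
  obtain ⟨R, hR⟩ := Pool.Agent.Y898.MTC.mt_col k r ρ
  refine ⟨R, fun χ G hG => ?_⟩
  obtain ⟨β, hβ, col, hcol⟩ := hR χ
  obtain ⟨X, hX⟩ : ∃ X : ℕ → Finset ℕ, X = fun i => if h : i < r then β ⟨i, h⟩ else {R + i} :=
    ⟨_, rfl⟩
  have hXr : ∀ i (h : i < r), X i = β ⟨i, h⟩ := by
    intro i h
    rw [hX]
    simp only
    rw [dif_pos h]
  have hXR : ∀ i, ¬ i < r → X i = {R + i} := by
    intro i h
    rw [hX]
    simp only
    rw [dif_neg h]
  have hXB : Blk X := by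
    refine ⟨fun i => ?_, fun i x hx y hy => ?_⟩
    · by_cases h : i < r
      · rw [hXr i h]
        exact (hβ.1 _).1
      · rw [hXR i h]
        exact singleton_nonempty _
    · by_cases h1 : i + 1 < r
      · rw [hXr i (by omega)] at hx
        rw [hXr (i + 1) h1] at hy
        exact hβ.2 _ _ (Fin.lt_def.2 (Nat.lt_succ_self i)) x hx y hy
      · rw [hXR (i + 1) h1, mem_singleton] at hy
        by_cases h2 : i < r
        · rw [hXr i h2] at hx
          have h3 := mem_range.1 ((hβ.1 _).2 hx)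
          omega
        · rw [hXR i h2, mem_singleton] at hx
          omega
  obtain ⟨α, hα, hGα⟩ := hG X hXB
  have hαr : ∀ l, ∀ n ∈ α l, n < r := fun l n hn => mem_range.1 ((hα.1 l).2 hn)
  refine ⟨fun l => (α l).biUnion X, ⟨fun l => ⟨?_, ?_⟩, ?_⟩, hGα, col, fun I hI hII => ?_⟩
  · obtain ⟨n, hn⟩ := (hα.1 l).1
    obtain ⟨z, hz⟩ := hXB.1 n
    exact ⟨z, mem_biUnion.2 ⟨n, hn, hz⟩⟩
  · intro z hz
    obtain ⟨n, hn, hz⟩ := mem_biUnion.1 hz
    rw [hXr n (hαr l n hn)] at hz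
    exact (hβ.1 _).2 hz
  · intro l l' hll x hx y hy
    obtain ⟨n, hn, hx⟩ := mem_biUnion.1 hx
    obtain ⟨n', hn', hy⟩ := mem_biUnion.1 hy
    rw [hXr n (hαr l n hn)] at hx
    rw [hXr n' (hαr l' n' hn')] at hy
    exact hβ.2 _ _ (Fin.lt_def.2 (hα.2 l l' hll n hn n' hn')) x hx y hy
  · obtain ⟨J, hJ⟩ : ∃ J : Fin k → Finset (Fin r), J = fun l =>
      univ.filter (fun t : Fin r => ∃ i ∈ I l, (t : ℕ) ∈ α i) := ⟨_, rfl⟩
    have h1 := hcol J (fun l => by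
      obtain ⟨i, hi⟩ := hI l
      obtain ⟨n, hn⟩ := (hα.1 i).1
      refine ⟨⟨n, hαr i n hn⟩, ?_⟩
      rw [hJ]
      exact mem_filter.2 ⟨mem_univ _, i, hi, hn⟩) (by
      intro l l' hll t ht t' ht'
      rw [hJ] at ht ht'
      obtain ⟨-, i, hi, hti⟩ := mem_filter.1 ht
      obtain ⟨-, i', hi', hti'⟩ := mem_filter.1 ht'
      exact Fin.lt_def.2 (hα.2 i i' (hII l l' hll i hi i' hi') _ hti _ hti'))
    rw [← h1]
    congr 1
    funext l
    ext z
    simp only [mem_biUnion]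
    constructor
    · rintro ⟨i, hi, n, hn, hz⟩
      refine ⟨⟨n, hαr i n hn⟩, ?_, ?_⟩
      · rw [hJ]
        exact mem_filter.2 ⟨mem_univ _, i, hi, hn⟩
      · rwa [hXr n (hαr i n hn)] at hz
    · rintro ⟨t, ht, hz⟩
      rw [hJ] at ht
      obtain ⟨-, i, hi, hti⟩ := mem_filter.1 ht
      refine ⟨i, hi, t, hti, ?_⟩
      rwa [hXr t t.2]

theorem sum_union {m r : ℕ} {γ : Fin m → Finset ℕ} (hγ : Inc r γ) (F : Finset (Fin m))
    (f : ℕ → ℤ) : ∑ n ∈ F.biUnion γ, f n = ∑ i ∈ F, ∑ n ∈ γ i, f n := by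
  classical
  rw [sum_biUnion]
  intro i _ j _ hij
  rw [Function.onFun, Finset.disjoint_left]
  intro z hz hz'
  rcases lt_or_gt_of_ne hij with hlt | hlt
  · exact absurd (hγ.2 i j hlt z hz z hz') (lt_irrefl _)
  · exact absurd (hγ.2 j i hlt z hz' z hz) (lt_irrefl _)

theorem sum_blk {X : ℕ → Finset ℕ} (hX : Blk X) (I : Finset ℕ) (f : ℕ → ℤ) :
    ∑ n ∈ I.biUnion X, f n = ∑ i ∈ I, ∑ n ∈ X i, f n := by
  classical
  refine sum_biUnion fun i _ j _ hij => ?_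
  rw [Function.onFun, Finset.disjoint_left]
  intro x hx hx'
  rcases Nat.lt_or_gt_of_ne hij with h | h
  · exact absurd (hX.lt h x hx x hx') (lt_irrefl _)
  · exact absurd (hX.lt h x hx' x hx) (lt_irrefl _)

/-- **The transfer principle.**  A property of `m`-tuples of integers which occurs in every long
sequence of sums, together with a colouring of `k`-tuples. -/
theorem joint (k m ρ r : ℕ) : ∃ c C : ℝ, 0 < c ∧ 0 < C ∧ ∀ᶠ x : ℝ in atTop,
    ∀ H : ℝ, 1 ≤ H → H ≤ c * ff x → ∀ χ : (Fin k → ℤ) → Fin ρ, ∀ Q : (Fin m → ℤ) → Prop,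
    (∀ B : ℕ, 0 < B → ∀ y : ℕ → ℕ, (∀ n, 0 < y n) → ∃ α : Fin m → Finset ℕ, Inc r α ∧
      Q (fun l => ∑ n ∈ α l, ((B * y n : ℕ) : ℤ))) →
    x ^ (7 / 8 : ℝ) ≤ (Set.ncard (Cl c C x H m (fun v => Q v ∧
      ∃ col, ∀ I : Fin k → Finset (Fin m), (∀ l, (I l).Nonempty) →
        (∀ l l', l < l' → ∀ i ∈ I l, ∀ j ∈ I l', i < j) →
        χ (fun l => ∑ i ∈ I l, v i) = col)) : ℝ) := by
  classical
  obtain ⟨R, hR⟩ := joint_fin k m ρ r
  obtain ⟨c, C, hc, hC, hx⟩ := Pool.Agent.Y898.PolyGaps.gaps_of_blocks' m R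
  refine ⟨c, C, hc, hC, ?_⟩
  filter_upwards [hx] with x hxx H hH hHc χ Q hQ
  refine hxx H hH hHc _ ?_
  intro B hB y hy
  obtain ⟨γ, hγ, hG, col, hcol⟩ := hR (fun α => χ (fun l => ∑ n ∈ α l, ((B * y n : ℕ) : ℤ)))
    (fun α => Q (fun l => ∑ n ∈ α l, ((B * y n : ℕ) : ℤ))) (by
      intro X hX
      obtain ⟨α, hα, hQα⟩ := hQ B hB (fun n => ∑ t ∈ X n, y t)
        (fun n => sum_pos (fun t _ => hy t) (hX.1 n))
      refine ⟨α, hα, ?_⟩
      have h1 : (fun l => ∑ n ∈ (α l).biUnion X, ((B * y n : ℕ) : ℤ)) =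
          fun l => ∑ n ∈ α l, ((B * ∑ t ∈ X n, y t : ℕ) : ℤ) := by
        funext l
        rw [sum_blk hX]
        refine sum_congr rfl fun n _ => ?_
        push_cast
        rw [mul_sum]
      show Q (fun l => ∑ n ∈ (α l).biUnion X, ((B * y n : ℕ) : ℤ))
      rw [h1]
      exact hQα)
  refine ⟨γ, hγ, hG, col, fun I hI hII => ?_⟩
  rw [← hcol I hI hII]
  congr 1
  funext l
  exact (sum_union hγ (I l) _).symm

end Pool.Agent.N365.PG
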